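import Mathlib

set_option autoImplicit false

namespace Pool.Agent.Results.MP_d61c7e_al.Exists

open Polynomial

universe u

/-- An endomorphism is non-degenerate if its image contains a non-constant polynomial. -/
def NonDegenerate {K : Type*} [Field K] {n : ℕ}
    (φ : MvPolynomial (Fin n) K →ₐ[K] MvPolynomial (Fin n) K) : Prop :=
  ∃ f, ∀ c : K, φ f ≠ MvPolynomial.C c

def W {R : Type*} [CommRing R] : List R → R
  | [] => 0
  | x :: l => x ^ 2 * W l ^ 2 + (x + W l)

def T {R : Type*} [CommRing R] (w : R) : List R → R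
  | [] => 0
  | x :: l => x + w ^ 2 * T w l

def P {R : Type*} [CommRing R] (l : List R) : R :=
  W l ^ (2 * l.length + 3) + W l ^ (2 * l.length + 1) + T (W l) l

lemma map_P {R S F : Type*} [CommRing R] [CommRing S] [FunLike F R S] [RingHomClass F R S] (f : F)
    (l : List R) : f (P l) = P (l.map f) := by
  have h1 : ∀ l : List R, f (W l) = W (l.map f) := fun l => by
    induction l <;> simp [W, *]
  have h2 : ∀ (w : R) (l : List R), f (T w l) = T (f w) (l.map f) := fun w l => by
    induction l <;> simp [T, *]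
  simp [P, h1, h2]

variable {K : Type u} [Field K]

lemma deg_pair (x y : K[X]) : max x.natDegree y.natDegree ≤ (x ^ 2 * y ^ 2 + (x + y)).natDegree := by
  rcases eq_or_ne x 0 with rfl | hx
  · simp
  rcases eq_or_ne y 0 with rfl | hy
  · simp
  have h1 : (x ^ 2 * y ^ 2).natDegree = 2 * x.natDegree + 2 * y.natDegree := by
    rw [natDegree_mul (pow_ne_zero _ hx) (pow_ne_zero _ hy), natDegree_pow, natDegree_pow]
  have h2 := natDegree_add_le x y
  rcases Nat.eq_zero_or_pos (max x.natDegree y.natDegree) with h | h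
  · omega
  rw [natDegree_add_eq_left_of_natDegree_lt] <;> omega

lemma deg_W (l : List K[X]) : ∀ x ∈ l, x.natDegree ≤ (W l).natDegree := by
  induction l with
  | nil => simp
  | cons y l ih =>
    have := deg_pair y (W l)
    intro x hx
    rcases List.mem_cons.mp hx with rfl | hx
    · exact (le_max_left _ _).trans this
    · exact ((ih x hx).trans (le_max_right _ _)).trans this

lemma deg_T (w : K[X]) (l : List K[X]) (h : ∀ x ∈ l, x.natDegree ≤ w.natDegree) :
    (T w l).natDegree ≤ 2 * l.length * w.natDegree := by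
  induction l with
  | nil => simp [T]
  | cons y l ih =>
    have h1 := ih fun x hx => h x (by simp [hx])
    have h2 := h y (by simp)
    have h3 : (w ^ 2 * T w l).natDegree ≤ _ := natDegree_mul_le.trans
      (add_le_add natDegree_pow_le h1)
    refine (natDegree_add_le _ _).trans (max_le ?_ ?_) <;> simp only [List.length_cons] <;>
      nlinarith

lemma T_inj (w : K[X]) (hw : 0 < w.natDegree) (l l' : List K[X]) (hl : l.length = l'.length)
    (h : ∀ x ∈ l, x.natDegree ≤ w.natDegree) (h' : ∀ x ∈ l', x.natDegree ≤ w.natDegree)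
    (e : T w l = T w l') : l = l' := by
  induction l generalizing l' with
  | nil => exact (List.length_eq_zero_iff.mp hl.symm).symm
  | cons y l ih =>
    obtain _ | ⟨y', l'⟩ := l'
    · simp at hl
    have h1 : y - y' = 0 := eq_zero_of_dvd_of_natDegree_lt
      (⟨T w l' - T w l, by simp only [T] at e; linear_combination e⟩ : w ^ 2 ∣ y - y') (by
        have := natDegree_sub_le y y'
        have := h y (by simp)
        have := h' y' (by simp)
        rw [natDegree_pow]
        omega)
    obtain rfl := sub_eq_zero.mp h1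
    have hw0 : w ≠ 0 := by rintro rfl; simp at hw
    rw [ih l' (by simpa using hl) (fun x hx => h x (by simp [hx])) (fun x hx => h' x (by simp [hx]))
      (mul_left_cancel₀ (pow_ne_zero 2 hw0) (add_left_cancel e))]

lemma top [CharZero K] (k : ℕ) (w v s t : K[X]) (hw : 0 < w.natDegree)
    (hs : s.natDegree ≤ 2 * k * w.natDegree) (ht : t.natDegree ≤ 2 * k * v.natDegree)
    (e : w ^ (2 * k + 3) + w ^ (2 * k + 1) + s = v ^ (2 * k + 3) + v ^ (2 * k + 1) + t) :
    w = v := by
  have hd : ∀ u r : K[X], r.natDegree ≤ 2 * k * u.natDegree →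
      (u ^ (2 * k + 1) + r).natDegree ≤ (2 * k + 1) * u.natDegree := fun u r h =>
    (natDegree_add_le _ _).trans (max_le natDegree_pow_le (by nlinarith))
  have hl : ∀ u r : K[X], 0 < u.natDegree → r.natDegree ≤ 2 * k * u.natDegree →
      (u ^ (2 * k + 1) + r).natDegree < (u ^ (2 * k + 3)).natDegree := fun u r h0 h =>
    (hd u r h).trans_lt (by rw [natDegree_pow]; nlinarith)
  have h1 := natDegree_add_eq_left_of_natDegree_lt (hl w s hw hs)
  rw [← add_assoc, e, natDegree_pow] at h1
  have hv : 0 < v.natDegree := by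
    by_contra h
    have h2 := (natDegree_add_le (v ^ (2 * k + 3)) (v ^ (2 * k + 1) + t)).trans
      (max_le_max natDegree_pow_le (hd v t ht))
    rw [← add_assoc, h1, Nat.eq_zero_of_not_pos h] at h2
    simp at h2
    omega
  rw [add_assoc, natDegree_add_eq_left_of_natDegree_lt (hl v t hv ht), natDegree_pow] at h1
  have h2 : v.natDegree = w.natDegree := Nat.eq_of_mul_eq_mul_left (by omega) h1
  have hw0 : w ≠ 0 := by rintro rfl; simp at hw
  have hv0 : v ≠ 0 := by rintro rfl; simp at hv
  have lw := leadingCoeff_ne_zero.mpr hw0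
  have lv := leadingCoeff_ne_zero.mpr hv0
  obtain ⟨ζ, hζ⟩ : ∃ ζ, v.leadingCoeff = ζ * w.leadingCoeff := ⟨_, (div_mul_cancel₀ _ lw).symm⟩
  have h3 : ζ ^ (2 * k + 3) = 1 := by
    have := congrArg leadingCoeff e
    rw [add_assoc, add_assoc, add_comm (w ^ _), add_comm (v ^ _),
      leadingCoeff_add_of_degree_lt (degree_lt_degree (hl w s hw hs)),
      leadingCoeff_add_of_degree_lt (degree_lt_degree (hl v t hv ht)), leadingCoeff_pow,
      leadingCoeff_pow, hζ, mul_pow] at this
    exact (mul_eq_right₀ (pow_ne_zero _ lw)).mp this.symm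
  have h4 : v = C ζ * w := by
    by_contra h
    have h5 := Commute.geom_sum₂_mul (Commute.all v (C ζ * w)) (2 * k + 3)
    set S := ∑ i ∈ Finset.range (2 * k + 3), v ^ i * (C ζ * w) ^ (2 * k + 3 - 1 - i)
    have h6 : S.coeff ((2 * k + 2) * w.natDegree) =
        (2 * k + 3 : ℕ) * v.leadingCoeff ^ (2 * k + 2) := by
      rw [finset_sum_coeff, Finset.sum_congr rfl (g := fun _ => v.leadingCoeff ^ (2 * k + 2))]
      · simp
      intro i hi
      have hi := Finset.mem_range.mp hi
      have hz : ζ ≠ 0 := by rintro rfl; simp at h3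
      have : (v ^ i * (C ζ * w) ^ (2 * k + 3 - 1 - i)).natDegree = (2 * k + 2) * w.natDegree := by
        rw [natDegree_mul (pow_ne_zero _ hv0) (pow_ne_zero _ (by simp [hz, hw0])), natDegree_pow,
          natDegree_pow, natDegree_C_mul hz, h2, ← add_mul]
        congr 1
        omega
      rw [← this, coeff_natDegree, leadingCoeff_mul, leadingCoeff_pow, leadingCoeff_pow,
        leadingCoeff_mul, leadingCoeff_C, ← hζ, ← pow_add]
      congr 1
      omega
    have h7 : S.coeff ((2 * k + 2) * w.natDegree) ≠ 0 := by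
      rw [h6]; exact mul_ne_zero (Nat.cast_ne_zero.mpr (by omega)) (pow_ne_zero _ lv)
    have h8 := le_natDegree_of_ne_zero h7
    have h9 : (S * (v - C ζ * w)).natDegree ≤ (2 * k + 1) * w.natDegree := by
      rw [h5, mul_pow, ← C_pow, h3, C_1, one_mul,
        show v ^ (2 * k + 3) - w ^ (2 * k + 3) = w ^ (2 * k + 1) + s - (v ^ (2 * k + 1) + t) by
          linear_combination -e]
      exact (natDegree_sub_le _ _).trans (max_le (hd w s hs) (h2 ▸ hd v t ht))
    rw [natDegree_mul (by rintro h; simp [h] at h7) (sub_ne_zero.mpr h)] at h9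
    nlinarith
  have h5 : ζ ^ (2 * k + 1) = 1 := by
    by_contra h
    have h6 : C (ζ ^ (2 * k + 1) - 1) * w ^ (2 * k + 1) = s - t := by
      rw [h4, mul_pow, mul_pow, ← C_pow, ← C_pow, h3, C_1] at e
      rw [C_sub, C_1]
      linear_combination -e
    have h7 := natDegree_sub_le s t
    rw [← h6, natDegree_C_mul (sub_ne_zero.mpr h), natDegree_pow] at h7
    have := h7.trans (max_le hs (h2 ▸ ht))
    nlinarith
  have h6 : ζ ^ 2 = 1 := by rwa [show 2 * k + 3 = 2 * k + 1 + 2 by ring, pow_add, h5, one_mul] at h3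
  rw [pow_succ, pow_mul, h6, one_pow, one_mul] at h5
  rw [h4, h5, C_1, one_mul]

lemma P_inj [CharZero K] (l l' : List K[X]) (hl : l.length = l'.length)
    (h : ∃ x ∈ l, 0 < x.natDegree) (e : P l = P l') : l = l' := by
  obtain ⟨x, hx, h⟩ := h
  have hw := h.trans_le (deg_W l x hx)
  rw [P, P, ← hl] at e
  have h1 := top _ _ _ _ _ hw (deg_T _ l (deg_W l)) (hl ▸ deg_T _ l' (deg_W l')) e
  rw [← h1] at e
  exact T_inj _ hw l l' hl (deg_W l) (h1 ▸ deg_W l') (add_left_cancel e)

/-- There is a polynomial whose image determines every non-degenerate endomorphism. -/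
theorem result (K : Type u) [Field K] [CharZero K] (n : ℕ) :
    ∃ p : MvPolynomial (Fin n) K, ∀ φ ψ : MvPolynomial (Fin n) K →ₐ[K] MvPolynomial (Fin n) K,
      NonDegenerate φ → NonDegenerate ψ → φ p = ψ p → φ = ψ := by
  refine ⟨P (List.ofFn MvPolynomial.X), fun φ ψ hφ _ e => ?_⟩
  obtain ⟨i, hi⟩ : ∃ i, ∀ c, φ (MvPolynomial.X i) ≠ MvPolynomial.C c := by
    by_contra! h
    choose c hc using h
    obtain ⟨f, hf⟩ := hφ
    have : φ = (Algebra.ofId K _).comp (MvPolynomial.aeval c) := by
      ext1 i; simp [hc]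
    exact hf _ (by rw [this]; rfl)
  ext1 j
  refine MvPolynomial.funext fun a => ?_
  obtain ⟨b, hb⟩ : ∃ b, MvPolynomial.eval b (φ (MvPolynomial.X i)) ≠
      MvPolynomial.eval a (φ (MvPolynomial.X i)) := by
    by_contra! h
    exact hi _ (MvPolynomial.funext fun b => (h b).trans (MvPolynomial.eval_C _).symm)
  let θ : MvPolynomial (Fin n) K →ₐ[K] K[X] :=
    MvPolynomial.aeval fun k => C (a k) + C (b k - a k) * X
  have h0 : ∀ f, (θ f).eval 0 = MvPolynomial.eval a f := fun f => by
    induction f using MvPolynomial.induction_on <;> simp_all [θ]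
  have h1 : ∀ f, (θ f).eval 1 = MvPolynomial.eval b f := fun f => by
    induction f using MvPolynomial.induction_on <;> simp_all [θ]
  have h2 := congrArg θ e
  rw [map_P, map_P, map_P, map_P] at h2
  have h3 := P_inj _ _ (by simp) ⟨θ (φ (MvPolynomial.X i)), by simp, Nat.pos_of_ne_zero fun h => by
    rw [← h0, ← h1, eq_C_of_natDegree_eq_zero h] at hb
    simp at hb⟩ h2
  simp only [List.map_ofFn, List.ofFn_inj] at h3
  rw [← h0, ← h0]
  exact congrArg _ (congrFun h3 j)

end Pool.Agent.Results.MP_d61c7e_al.Exists
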